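import Pool.Agent.V11101.OctTen

/-!
# An octahedral space whose projective tensor products with Hilbert spaces are not octahedral
-/

open Pool.Agent.V11101.LF Pool.Agent.V11101.Proj Pool.Agent.V11101.Oct
open scoped RealInnerProductSpace

namespace Pool.Agent.Results.MP_247e0b_an.NotOctahedral

theorem exists_vectors' {H : Type} [NormedAddCommGroup H] [InnerProductSpace ℝ H] (u v : H)
    (hu : ‖u‖ = 1) (hv : ‖v‖ = 1) (huv : ⟪u, v⟫ = 0) :
    ∃ w0 w1 w2 : H, ‖w0‖ = 1 ∧ ‖w1‖ = 1 ∧ ‖w2‖ = 1 ∧ w0 + w1 + w2 = 0 := by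
  have h3 : Real.sqrt 3 ^ 2 = 3 := Real.sq_sqrt (by norm_num)
  have key : ∀ s : ℝ, s ^ 2 = 3 → ‖(-1 / 2 : ℝ) • u + (s / 2) • v‖ = 1 := by
    intro s hs
    have h4 : ‖(-1 / 2 : ℝ) • u + (s / 2) • v‖ ^ 2 = 1 := by
      rw [norm_add_sq_real, norm_smul, norm_smul, hu, hv, real_inner_smul_left,
        real_inner_smul_right, huv, mul_one, mul_one, Real.norm_eq_abs, Real.norm_eq_abs, sq_abs,
        sq_abs, div_pow s, hs]
      norm_num
    have h5 := norm_nonneg ((-1 / 2 : ℝ) • u + (s / 2) • v)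
    nlinarith
  refine ⟨u, (-1 / 2 : ℝ) • u + (Real.sqrt 3 / 2) • v, (-1 / 2 : ℝ) • u + (-Real.sqrt 3 / 2) • v,
    hu, key _ h3, key _ (by rw [neg_sq]; exact h3), by module⟩

/-- There is an octahedral Banach space `X` such that, for `Y = ℓ_2^2` and more generally for every
real Hilbert space `Y` of dimension at least two, the completed projective tensor product
`X ⊗̂_π Y` is not octahedral. -/
theorem result :
    ∃ (X : Type) (_ : NormedAddCommGroup X) (_ : NormedSpace ℝ X), CompleteSpace X ∧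
      Octahedral X ∧ ¬ Octahedral (Ten X (EuclideanSpace ℝ (Fin 2))) ∧
      ∀ (Y : Type) [NormedAddCommGroup Y] [InnerProductSpace ℝ Y] [CompleteSpace Y],
        (∃ u v : Y, ‖u‖ = 1 ∧ ‖v‖ = 1 ∧ ⟪u, v⟫ = 0) → ¬ Octahedral (Ten X Y) := by
  refine ⟨Free MM oo, inferInstance, inferInstance, inferInstance, octahedral_free, ?_, ?_⟩
  · obtain ⟨w0, w1, w2, h0, h1, h2, hw⟩ := exists_vectors
    exact not_octahedral w0 w1 w2 h0 h1 h2 hw
  · rintro X _ _ _ ⟨u, v, hu, hv, huv⟩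
    obtain ⟨w0, w1, w2, h0, h1, h2, hw⟩ := exists_vectors' u v hu hv huv
    exact not_octahedral w0 w1 w2 h0 h1 h2 hw

end Pool.Agent.Results.MP_247e0b_an.NotOctahedral
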